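import Pool.Agent.W711.HT.Geo

/-!
# HT-CCH: critical configurations are chains
-/

set_option autoImplicit false

namespace Pool.Agent.W374.HT.Cch

open Filter Finset Topology Metric
open Pool.Agent.W711.HT
open Pool.Agent.W709.VC (Dv)
open scoped Real ComplexConjugate

/-- estimates of a critical point -/
lemma cpt_facts {C ρ τ : ℝ} (hC : 0 < C) (a : ℤ) (n : ℕ) (e : ℝ) (he : e = 1 ∨ e = -1)
    (ha : (a : ℝ) = e * n) (hn : 100 ≤ n) (hnC : C ≤ n) (z : ℂ) (h : CPt C ρ τ a z) :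
    0 < z.im ∧ e * z.re < 0 ∧ ‖z‖ ≤ 1 / 10 := by
  have hn' : (100 : ℝ) ≤ n := by exact_mod_cast hn
  have hn0 : (0 : ℝ) < n := by linarith
  have he2 : e ^ 2 = 1 := by rcases he with rfl | rfl <;> norm_num
  have ha2 : (a : ℝ) ^ 2 = (n : ℝ) ^ 2 := by rw [ha, mul_pow, he2, one_mul]
  have hne : (a : ℝ) ≠ 0 := by
    intro h0
    rw [h0] at ha2
    have : (0 : ℝ) < (n : ℝ) ^ 2 := by positivity
    norm_num at ha2
    linarith
  have hpi := Real.pi_gt_three
  have hpi2 := Real.pi_lt_d2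
  have hCn : C / (a : ℝ) ^ 2 ≤ 1 / n := by
    rw [ha2, div_le_div_iff₀ (by positivity) hn0]
    nlinarith
  have hcl := h.cl.trans hCn
  have him : 0 < z.im := lt_of_lt_of_le (by
    rw [ha2]; positivity) h.im
  set w : ℂ := z + 2 * π / a with hw
  have hza : z = w - ((2 * π / a : ℝ) : ℂ) := by
    rw [hw]; push_cast; ring
  have habs : |2 * π / (a : ℝ)| = 2 * π / n := by
    rw [ha, abs_div, abs_mul, abs_mul, abs_of_pos hn0]
    have : |e| = 1 := by rcases he with rfl | rfl <;> norm_num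
    rw [this, abs_of_pos (by norm_num : (0:ℝ) < 2), abs_of_pos Real.pi_pos, one_mul]
  refine ⟨him, ?_, ?_⟩
  · have h1 : z.re = w.re - 2 * π / a := by
      rw [hza]; simp only [Complex.sub_re, Complex.ofReal_re]
    have h2 : e * (2 * π / (a : ℝ)) = 2 * π / n := by
      rw [ha]
      rcases he with rfl | rfl
      · rw [one_mul, one_mul]
      · field_simp
    have h3 : e * w.re ≤ ‖w‖ := by
      have := Complex.abs_re_le_norm w
      rcases he with rfl | rfl
      · linarith [le_abs_self w.re]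
      · linarith [neg_le_abs w.re]
    have h4 : 1 / (n : ℝ) < 2 * π / n := by
      apply div_lt_div_of_pos_right _ hn0
      linarith
    rw [h1, mul_sub, h2]
    linarith
  · calc ‖z‖ = ‖w - ((2 * π / a : ℝ) : ℂ)‖ := by rw [← hza]
      _ ≤ ‖w‖ + ‖((2 * π / a : ℝ) : ℂ)‖ := norm_sub_le _ _
      _ ≤ 1 / n + 2 * π / n := by
          rw [Complex.norm_real, Real.norm_eq_abs, habs]
          linarith
      _ = (1 + 2 * π) / n := by ring
      _ ≤ 1 / 10 := by
          rw [div_le_div_iff₀ hn0 (by norm_num)]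
          linarith

lemma cos_sub_one_le (z : ℂ) (hz : ‖z‖ ≤ 1) : ‖Complex.cos z - 1‖ ≤ 2 * ‖z‖ := by
  have h1 : Complex.cos z - 1 = ((Complex.exp (z * Complex.I) - 1) +
      (Complex.exp (-z * Complex.I) - 1)) / 2 := by
    rw [Complex.cos]; ring
  have e1 : ‖z * Complex.I‖ = ‖z‖ := by simp
  have e2 : ‖-z * Complex.I‖ = ‖z‖ := by simp
  have n1 := Complex.norm_exp_sub_one_le (x := z * Complex.I) (by rw [e1]; exact hz)
  have n2 := Complex.norm_exp_sub_one_le (x := -z * Complex.I) (by rw [e2]; exact hz)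
  rw [e1] at n1
  rw [e2] at n2
  rw [h1, norm_div]
  have : ‖(2 : ℂ)‖ = 2 := by norm_num
  rw [this, div_le_iff₀ (by norm_num)]
  refine (norm_add_le _ _).trans ?_
  linarith

lemma sin_le (z : ℂ) (hz : ‖z‖ ≤ 1) : ‖Complex.sin z‖ ≤ 2 * ‖z‖ := by
  have h1 : Complex.sin z = ((Complex.exp (-z * Complex.I) - 1) -
      (Complex.exp (z * Complex.I) - 1)) * Complex.I / 2 := by
    rw [Complex.sin]; ring
  have e1 : ‖z * Complex.I‖ = ‖z‖ := by simp
  have e2 : ‖-z * Complex.I‖ = ‖z‖ := by simp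
  have n1 := Complex.norm_exp_sub_one_le (x := z * Complex.I) (by rw [e1]; exact hz)
  have n2 := Complex.norm_exp_sub_one_le (x := -z * Complex.I) (by rw [e2]; exact hz)
  rw [e1] at n1
  rw [e2] at n2
  rw [h1, norm_div, norm_mul, Complex.norm_I, mul_one]
  have : ‖(2 : ℂ)‖ = 2 := by norm_num
  rw [this, div_le_iff₀ (by norm_num)]
  refine (norm_sub_le _ _).trans ?_
  linarith

lemma cosu_le (u : ℂ) (hu : ‖u - π / 2‖ ≤ π / 8) : ‖Complex.cos u‖ ≤ π / 4 := by
  have hpi2 := Real.pi_lt_d2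
  have h1 : Complex.cos u = -Complex.sin (u - π / 2) := by
    rw [Complex.sin_sub_pi_div_two, neg_neg]
  rw [h1, norm_neg]
  refine (sin_le _ (hu.trans (by linarith))).trans ?_
  linarith

lemma argpos {w : ℂ} (h : 0 < w.re) : |w.arg| < π / 2 := by
  rw [Complex.abs_arg_lt_pi_div_two_iff]
  exact Or.inl h

lemma sin_re (w : ℂ) : (Complex.sin w).re = Real.sin w.re * Real.cosh w.im := by
  rw [Complex.sin_eq, ← Complex.ofReal_sin, ← Complex.ofReal_cosh, ← Complex.ofReal_cos,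
    ← Complex.ofReal_sinh, ← Complex.ofReal_mul, ← Complex.ofReal_mul]
  simp only [Complex.add_re, Complex.ofReal_re, Complex.mul_I_re, Complex.ofReal_im, neg_zero,
    add_zero]

/-- the logarithms at a hinge -/
lemma logs (z ψ' δ : ℂ) (hz : ‖z‖ ≤ 1 / 10) (hψ : ‖ψ'‖ ≤ 1 / 10) (hδ : ‖δ - 1 / 4‖ ≤ 1 / 16)
    (hcos : Complex.cos (2 * π * δ) = (1 - Complex.cos z * Complex.cos ψ') /
      (2 + Complex.cos z + Complex.cos ψ')) :
    (Complex.log (2 * Complex.cos z + 2 * Complex.cos (2 * π * δ))).im +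
      (Complex.log (2 * Complex.cos ψ' + 2 * Complex.cos (2 * π * δ))).im =
      4 * (Complex.log (2 * Complex.sin (π * δ))).im := by
  have hpi := Real.pi_gt_three
  have hpi2 := Real.pi_lt_d2
  have hu : ‖2 * (π : ℂ) * δ - π / 2‖ ≤ π / 8 := by
    have : 2 * (π : ℂ) * δ - π / 2 = ((2 * π : ℝ) : ℂ) * (δ - 1 / 4) := by
      push_cast; ring
    rw [this, norm_mul, Complex.norm_real, Real.norm_eq_abs, abs_of_pos (by linarith)]
    nlinarith
  set u : ℂ := 2 * π * δ with hud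
  have hcu := cosu_le u hu
  have hcz := cos_sub_one_le z (by linarith)
  have hcp := cos_sub_one_le ψ' (by linarith)
  have hrec : ∀ y : ℂ, ‖Complex.cos y - 1‖ ≤ 2 * ‖y‖ → ‖y‖ ≤ 1 / 10 →
      0 < (2 * Complex.cos y + 2 * Complex.cos u).re := by
    intro y h1 h2
    have h3 := Complex.abs_re_le_norm (Complex.cos y - 1)
    have h4 := Complex.abs_re_le_norm (Complex.cos u)
    have h5 : (2 * Complex.cos y + 2 * Complex.cos u).re =
        2 * (Complex.cos y).re + 2 * (Complex.cos u).re := by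
      simp
    have h6 : (Complex.cos y - 1).re = (Complex.cos y).re - 1 := by simp
    rw [h6] at h3
    have h7 := neg_abs_le ((Complex.cos y).re - 1)
    have h8 := neg_abs_le (Complex.cos u).re
    rw [h5]
    linarith
  have hA := hrec z hcz hz
  have hB := hrec ψ' hcp hψ
  have hcosre : |(Complex.cos u).re| ≤ π / 4 := (Complex.abs_re_le_norm _).trans hcu
  set S : ℂ := 2 * Complex.sin (π * δ) with hS
  have hud2 : (π : ℂ) * δ = u / 2 := by rw [hud]; ring
  have hS2 : S * S = 2 - 2 * Complex.cos u := by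
    have h1 : Complex.cos u = 2 * Complex.cos (u / 2) ^ 2 - 1 := by
      rw [← Complex.cos_two_mul]; congr 1; ring
    have h2 := Complex.sin_sq_add_cos_sq (u / 2)
    rw [hS, hud2, h1]
    linear_combination 4 * h2
  have hS2re : 0 < (S * S).re := by
    rw [hS2]
    have : (2 - 2 * Complex.cos u).re = 2 - 2 * (Complex.cos u).re := by simp
    rw [this]
    have := le_abs_self (Complex.cos u).re
    linarith
  have hSre : 0 < S.re := by
    rw [hS, hud2]
    have h1 : |(u - π / 2).re| ≤ π / 8 := (Complex.abs_re_le_norm _).trans hu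
    have h2 : (u - π / 2).re = u.re - π / 2 := by
      have : ((π : ℂ) / 2) = ((π / 2 : ℝ) : ℂ) := by push_cast; ring
      rw [this, Complex.sub_re, Complex.ofReal_re]
    rw [h2, abs_le] at h1
    have h3 : (u / 2).re = u.re / 2 := by
      rw [show (u / 2 : ℂ) = u / ((2 : ℝ) : ℂ) by push_cast; ring, Complex.div_ofReal_re]
    have h4 : (2 * Complex.sin (u / 2)).re = 2 * (Complex.sin (u / 2)).re := by simp
    have h5 : (Complex.sin (u / 2)).re = Real.sin (u / 2).re * Real.cosh (u / 2).im := sin_re _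
    rw [h4, h5, h3]
    have h6 : 0 < Real.sin (u.re / 2) := Real.sin_pos_of_pos_of_lt_pi (by linarith) (by linarith)
    have h7 := Real.cosh_pos (u / 2).im
    positivity
  have hAB : (2 * Complex.cos z + 2 * Complex.cos u) * (2 * Complex.cos ψ' + 2 * Complex.cos u) =
      (S * S) * (S * S) := by
    have hden : (2 + Complex.cos z + Complex.cos ψ') ≠ 0 := by
      intro h0
      have h1 : (2 + Complex.cos z + Complex.cos ψ').re = 0 := by rw [h0]; simp
      have h2 : (2 + Complex.cos z + Complex.cos ψ').re =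
          2 + (Complex.cos z).re + (Complex.cos ψ').re := by simp
      have h3 := Complex.abs_re_le_norm (Complex.cos z - 1)
      have h4 := Complex.abs_re_le_norm (Complex.cos ψ' - 1)
      have h6 : (Complex.cos z - 1).re = (Complex.cos z).re - 1 := by simp
      have h7 : (Complex.cos ψ' - 1).re = (Complex.cos ψ').re - 1 := by simp
      rw [h6] at h3
      rw [h7] at h4
      have h8 := neg_abs_le ((Complex.cos z).re - 1)
      have h9 := neg_abs_le ((Complex.cos ψ').re - 1)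
      linarith
    have h1 : Complex.cos u * (2 + Complex.cos z + Complex.cos ψ') =
        1 - Complex.cos z * Complex.cos ψ' := by
      rw [hcos, div_mul_cancel₀ _ hden]
    rw [hS2]
    linear_combination 4 * h1
  have argA := argpos hA
  have argB := argpos hB
  have argS2 := argpos hS2re
  have argS := argpos hSre
  rw [abs_lt] at argA argB argS2 argS
  have nA : (2 * Complex.cos z + 2 * Complex.cos u) ≠ 0 := by
    intro h; rw [h] at hA; simp at hA
  have nB : (2 * Complex.cos ψ' + 2 * Complex.cos u) ≠ 0 := by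
    intro h; rw [h] at hB; simp at hB
  have nS2 : S * S ≠ 0 := by
    intro h; rw [h] at hS2re; simp at hS2re
  have nS : S ≠ 0 := by
    intro h; rw [h] at hSre; simp at hSre
  have l1 : Complex.log ((2 * Complex.cos z + 2 * Complex.cos u) *
      (2 * Complex.cos ψ' + 2 * Complex.cos u)) =
      Complex.log (2 * Complex.cos z + 2 * Complex.cos u) +
      Complex.log (2 * Complex.cos ψ' + 2 * Complex.cos u) :=
    (Complex.log_mul_eq_add_log_iff nA nB).2 ⟨by linarith, by linarith⟩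
  have l2 : Complex.log ((S * S) * (S * S)) = Complex.log (S * S) + Complex.log (S * S) :=
    (Complex.log_mul_eq_add_log_iff nS2 nS2).2 ⟨by linarith, by linarith⟩
  have l3 : Complex.log (S * S) = Complex.log S + Complex.log S :=
    (Complex.log_mul_eq_add_log_iff nS nS).2 ⟨by linarith, by linarith⟩
  rw [← Complex.add_im, ← l1, hAB, l2, l3]
  simp only [Complex.add_im]
  ring

lemma Rc_mono {ρ τ : ℝ} (hρ : 0 < ρ) (hτ : 0 < τ) {z : ℂ} (h : z ∈ Rc ρ τ) :
    z ∈ Rc (3 * ρ) (3 * τ) :=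
  ⟨h.1.trans (by linarith), h.2.trans (by linarith)⟩

lemma Rc_open (ρ τ : ℝ) : IsOpen (Rc ρ τ) :=
  (isOpen_lt (continuous_abs.comp Complex.continuous_re) continuous_const).inter
    (isOpen_lt (continuous_abs.comp Complex.continuous_im) continuous_const)

section
variable {ρ τ κ c : ℝ} {s dl : ℂ → ℂ → ℂ}

lemma der1 (hK : KD ρ τ κ c s dl) {z ψ' : ℂ} (hz : z ∈ Rc ρ τ) (hψ : ψ' ∈ Rc ρ τ) :
    deriv (fun w => s w ψ') z = -(1 / (2 * π)) * Lg (2 * π * dl z ψ') z :=
  (hK.sder z (Rc_mono hK.hρ.1 hK.hτ.1 hz) ψ' (Rc_mono hK.hρ.1 hK.hτ.1 hψ)).deriv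

lemma der2 (hK : KD ρ τ κ c s dl) {z ψ' : ℂ} (hz : z ∈ Rc ρ τ) (hψ : ψ' ∈ Rc ρ τ) :
    deriv (fun w => s z w) ψ' = -(1 / (2 * π)) * Lg (2 * π * dl z ψ') ψ' := by
  have hz' := Rc_mono hK.hρ.1 hK.hτ.1 hz
  have hψ' := Rc_mono hK.hρ.1 hK.hτ.1 hψ
  have h1 : (fun w => s z w) =ᶠ[𝓝 ψ'] (fun w => s w z) := by
    filter_upwards [(Rc_open (3 * ρ) (3 * τ)).mem_nhds hψ'] with w hw
    exact hK.sym z hz' w hw
  rw [h1.deriv_eq, hK.dsym z hz' ψ' hψ']
  exact (hK.sder ψ' hψ' z hz').deriv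

lemma der1' (hK : KD ρ τ κ c s dl) {z ψ' : ℂ} (hz : z ∈ Rc ρ τ) (hψ : ψ' ∈ Rc ρ τ) :
    deriv (fun w => s w ψ') z = -(Complex.I / π) * tt z (2 * π * dl z ψ') := by
  have hpi : (π : ℂ) ≠ 0 := by exact_mod_cast Real.pi_ne_zero
  rw [der1 hK hz hψ, tt]
  have := Complex.I_ne_zero
  field_simp

lemma der2' (hK : KD ρ τ κ c s dl) {z ψ' : ℂ} (hz : z ∈ Rc ρ τ) (hψ : ψ' ∈ Rc ρ τ) :
    deriv (fun w => s z w) ψ' = -(Complex.I / π) * tt ψ' (2 * π * dl z ψ') := by
  have hpi : (π : ℂ) ≠ 0 := by exact_mod_cast Real.pi_ne_zero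
  rw [der2 hK hz hψ, tt]
  have := Complex.I_ne_zero
  field_simp

/-- the conditions at a hinge -/
lemma hp (hK : KD ρ τ κ c s dl) {z ψ' : ℂ} (hz : z ∈ Rc ρ τ) (hψ : ψ' ∈ Rc ρ τ)
    (hz0 : z ≠ 0) (hψ0 : ψ' ≠ 0) (hz1 : ‖z‖ ≤ 1 / 10) (hψ1 : ‖ψ'‖ ≤ 1 / 10) :
    HP z ψ' (2 * π * dl z ψ') := by
  have hz' := Rc_mono hK.hρ.1 hK.hτ.1 hz
  have hψ' := Rc_mono hK.hρ.1 hK.hτ.1 hψ
  have hpi := Real.pi_gt_three
  refine ⟨hz0, hψ0, hz1, hψ1, ?_, hK.dcos z hz' ψ' hψ'⟩
  have h1 := hK.dclose z hz' ψ' hψ'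
  have : 2 * (π : ℂ) * dl z ψ' - π / 2 = ((2 * π : ℝ) : ℂ) * (dl z ψ' - 1 / 4) := by
    push_cast; ring
  rw [this, norm_mul, Complex.norm_real, Real.norm_eq_abs, abs_of_pos (by linarith)]
  nlinarith

/-- the value at a hinge -/
lemma valh (hP : S_POTH) (hK : KD ρ τ κ c s dl) {z ψ' : ℂ} (hz : z ∈ Rc ρ τ) (hψ : ψ' ∈ Rc ρ τ)
    (hz1 : ‖z‖ ≤ 1 / 10) (hψ1 : ‖ψ'‖ ≤ 1 / 10) :
    2 * π * (s z ψ').re = hv z ψ' (2 * π * dl z ψ') + z.im * (Lg (2 * π * dl z ψ') z).im +
      ψ'.im * (Lg (2 * π * dl z ψ') ψ').im := by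
  have hz' := Rc_mono hK.hρ.1 hK.hτ.1 hz
  have hψ' := Rc_mono hK.hρ.1 hK.hτ.1 hψ
  have h1 := hK.dclose z hz' ψ' hψ'
  obtain ⟨a1, b1⟩ := hP (dl z ψ') z h1 (by linarith)
  obtain ⟨a2, -⟩ := hP (dl z ψ') ψ' h1 (by linarith)
  have hl := logs z ψ' (dl z ψ') hz1 hψ1 h1 (hK.dcos z hz' ψ' hψ')
  rw [hK.scrit z hz' ψ' hψ']
  have e1 : (rrF (dl z ψ') z + rrF (dl z ψ') ψ' - 4 * ssF (dl z ψ')).re =
      (rrF (dl z ψ') z).re + (rrF (dl z ψ') ψ').re - 4 * (ssF (dl z ψ')).re := by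
    have : (4 * ssF (dl z ψ')).re = 4 * (ssF (dl z ψ')).re := by
      rw [show (4 : ℂ) = ((4 : ℝ) : ℂ) by norm_num, Complex.re_ofReal_mul]
    rw [Complex.sub_re, Complex.add_re, this]
  rw [e1]
  unfold hv
  linear_combination a1 + a2 + 4 * b1 + (-(2 * (π : ℂ) * dl z ψ').im) * hl

end

lemma sgn_cases (l : List (ℕ × ℂ)) : sgn l = 1 ∨ sgn l = -1 := by
  unfold sgn
  split_ifs
  · left; rfl
  · right; rfl

lemma sg_real (l : List (ℕ × ℂ)) (n : ℕ) :
    (((if bl l then (n : ℤ) else -(n : ℤ)) : ℤ) : ℝ) = sgn l * n := by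
  unfold sgn
  split_ifs <;> push_cast <;> ring

lemma sg_cx (l : List (ℕ × ℂ)) (n : ℕ) :
    (((if bl l then (n : ℤ) else -(n : ℤ)) : ℤ) : ℂ) = (sgn l : ℂ) * n := by
  unfold sgn
  split_ifs <;> push_cast <;> ring

/-- from the critical equation to the equation of a chain -/
lemma eqn (a z g T1 T2 : ℂ) (hg : g = -(Complex.I / π) * T1)
    (h : Complex.I * a * z / (2 * π) + Complex.I + g + -(Complex.I / π) * T2 = 0) :
    -(a * z / 2) + T1 + T2 = π := by
  have hpi : (π : ℂ) ≠ 0 := by exact_mod_cast Real.pi_ne_zero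
  have hI := Complex.I_ne_zero
  rw [hg] at h
  have h2 : (Complex.I / π) * (a * z / 2 + π - T1 - T2) = 0 := by
    rw [← h]; field_simp; ring
  have h3 : a * z / 2 + π - T1 - T2 = 0 := by
    rcases mul_eq_zero.1 h2 with h4 | h4
    · exact absurd h4 (div_ne_zero hI hpi)
    · exact h4
  linear_combination (-1 : ℂ) * h3

/-- imaginary part of the critical equation -/
lemma eqim (a : ℝ) (z g D : ℂ)
    (h : Complex.I * a * z / (2 * π) + Complex.I + g + D = 0) :
    a * z.re + 2 * π + 2 * π * g.im + 2 * π * D.im = 0 := by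
  have hpi : (π : ℝ) ≠ 0 := Real.pi_ne_zero
  have h1 : (Complex.I * a * z / (2 * π)).im = a * z.re / (2 * π) := by
    rw [show Complex.I * (a : ℂ) * z / (2 * π) = (Complex.I * z) * ((a / (2 * π) : ℝ) : ℂ) by
      push_cast; ring, Complex.im_mul_ofReal, Complex.I_mul_im]
    ring
  have h2 := congrArg Complex.im h
  simp only [Complex.add_im, Complex.zero_im, Complex.I_im] at h2
  rw [h1] at h2
  field_simp at h2
  linarith

/-- real part of the first two terms of the value -/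
lemma valq (a : ℝ) (z : ℂ) :
    2 * π * (Complex.I * a * z ^ 2 / (4 * π) + Complex.I * z).re =
      -(z.im * (a * z.re + 2 * π)) := by
  have hpi : (π : ℝ) ≠ 0 := Real.pi_ne_zero
  have h1 : (Complex.I * a * z ^ 2 / (4 * π)).re = -(a * z.re * z.im / (2 * π)) := by
    rw [show Complex.I * (a : ℂ) * z ^ 2 / (4 * π) =
      (Complex.I * (z * z)) * ((a / (4 * π) : ℝ) : ℂ) by
      push_cast; ring, Complex.re_mul_ofReal, Complex.I_mul_re, Complex.mul_im]
    ring
  rw [Complex.add_re, h1, Complex.I_mul_re]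
  field_simp
  ring

/-- the induction over the twist regions -/
lemma ind (hP : S_POTH) {ρ τ κ c : ℝ} {s dl : ℂ → ℂ → ℂ} (hK : KD ρ τ κ c s dl) {C : ℝ}
    (hC : 0 < C) : ∀ l : List (ℕ × ℂ), (∀ p' ∈ l, 100 ≤ p'.1 ∧ C ≤ p'.1) → ∀ ψ' v g : ℂ,
      Crit s C ρ τ (sgc l) (l.map Prod.snd) ψ' v g → ψ' ∈ Rc ρ τ → ‖ψ'‖ ≤ 1 / 10 →
      g = -(Complex.I / π) * tl dl l ψ' ∧ Chn dl l (tr dl l ψ') ∧
      (∀ p' ∈ l.head?, p'.2 ≠ 0 ∧ ‖p'.2‖ ≤ 1 / 10 ∧ p'.2 ∈ Rc ρ τ) ∧
      2 * π * v.re = hsum dl l + (l.head?.elim 0 fun p' => hv p'.2 ψ' (2 * π * dl p'.2 ψ')) -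
        2 * π * ψ'.im * g.im
  | [], _, ψ', v, g, h, _, _ => by
      simp only [sgc, List.map_nil] at h
      cases h
      refine ⟨by simp [tl], trivial, by simp, by simp [hsum]⟩
  | p :: l, hM, ψ', v, g, h, hψ, hψ1 => by
      simp only [sgc, List.map_cons] at h
      cases h with
      | cons a l0 z ps ψ0 v' g' hc hcp heq =>
        obtain ⟨hM1, hM2⟩ := hM p (List.mem_cons_self)
        obtain ⟨him, hre, hn⟩ := cpt_facts hC _ p.1 (sgn l) (sgn_cases l) (sg_real l p.1) hM1 hM2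
          p.2 hcp
        have hz := hcp.mem
        have hz0 : p.2 ≠ 0 := by
          intro h0
          rw [h0] at him
          simp at him
        obtain ⟨i1, i2, i3, i4⟩ := ind hP hK hC l (fun p' hp' => hM p' (List.mem_cons_of_mem _ hp'))
          p.2 v' g' hc hz hn
        have hD := der1' hK hz hψ
        refine ⟨der2' hK hz hψ, ?_, ?_, ?_⟩
        · refine ⟨by omega, him, hre, ?_, ?_, i2⟩
          · rw [hD, sg_cx] at heq
            have := eqn _ _ _ _ _ i1 heq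
            rw [← this]
            simp only [tr]
            ring
          · intro p' hp'
            obtain ⟨j1, j2, j3⟩ := i3 p' hp'
            exact hp hK j3 hz j1 hz0 j2 hn
        · intro p' hp'
          simp only [List.head?_cons, Option.mem_def, Option.some.injEq] at hp'
          subst hp'
          exact ⟨hz0, hn, hz⟩
        · rw [der1 hK hz hψ, sg_cx] at heq
          have e1 := eqim (sgn l * p.1) p.2 g' (-(1 / (2 * π)) * Lg (2 * π * dl p.2 ψ') p.2) (by
            rw [← heq]; push_cast; ring)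
          have e2 := valq (sgn l * p.1) p.2
          have e3 := valh hP hK hz hψ hn hψ1
          have e4 : ∀ w : ℂ, (-(1 / (2 * π)) * w).im = -(w.im / (2 * π)) := by
            intro w
            rw [show (-(1 / (2 * π)) * w : ℂ) = ((-(1 / (2 * π)) : ℝ) : ℂ) * w by push_cast; ring,
              Complex.im_ofReal_mul]
            ring
          rw [der2 hK hz hψ, e4]
          rw [e4] at e1
          have hpi : (π : ℝ) ≠ 0 := Real.pi_ne_zero
          have e5 : ∀ x : ℝ, 2 * π * -(x / (2 * π)) = -x := by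
            intro x; field_simp
          rw [e5] at e1
          have e6 : 2 * π * ψ'.im * -((Lg (2 * π * dl p.2 ψ') ψ').im / (2 * π)) =
              -(ψ'.im * (Lg (2 * π * dl p.2 ψ') ψ').im) := by
            field_simp
          rw [e6]
          simp only [List.head?_cons, Option.elim_some, hsum]
          have e7 : (Complex.I * ((if bl l then (p.1 : ℤ) else -(p.1 : ℤ) : ℤ) : ℂ) * p.2 ^ 2 /
              (4 * π) + Complex.I * p.2 + v' + s p.2 ψ').re =
              (Complex.I * ((sgn l * p.1 : ℝ) : ℂ) * p.2 ^ 2 / (4 * π) + Complex.I * p.2).re +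
                v'.re + (s p.2 ψ').re := by
            rw [sg_cx]
            push_cast
            simp only [Complex.add_re]
          rw [e7]
          linear_combination e2 + e3 + i4 + (-p.2.im) * e1

theorem cch (hP : S_POTH) : S_CCH := by
  intro ρ τ κ c s dl hK C hC
  refine ⟨max 100 ⌈C⌉₊, ?_⟩
  intro p l hl hM v g hcr hcp heq
  have hM' : ∀ p' ∈ p :: l, 100 ≤ p'.1 ∧ C ≤ p'.1 := by
    intro p' hp'
    have h1 := hM p' hp'
    refine ⟨(le_max_left _ _).trans h1, ?_⟩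
    have h2 : ⌈C⌉₊ ≤ p'.1 := (le_max_right _ _).trans h1
    exact (Nat.le_ceil C).trans (by exact_mod_cast h2)
  obtain ⟨hM1, hM2⟩ := hM' p (List.mem_cons_self)
  obtain ⟨him, hre, hn⟩ := cpt_facts hC _ p.1 (sgn l) (sgn_cases l) (sg_real l p.1) hM1 hM2
    p.2 hcp
  have hz := hcp.mem
  have hz0 : p.2 ≠ 0 := by
    intro h0
    rw [h0] at him
    simp at him
  obtain ⟨i1, i2, i3, i4⟩ := ind hP hK hC l (fun p' hp' => hM' p' (List.mem_cons_of_mem _ hp'))
    p.2 v g hcr hz hn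
  rw [sg_cx] at heq
  refine ⟨⟨by omega, him, hre, ?_, ?_, i2⟩, ?_⟩
  · have := eqn ((sgn l : ℂ) * p.1) p.2 g (tl dl l p.2) 0 i1 (by rw [mul_zero, add_zero]; exact heq)
    rw [← this]
    ring
  · intro p' hp'
    obtain ⟨j1, j2, j3⟩ := i3 p' hp'
    exact hp hK j3 hz j1 hz0 j2 hn
  · have e1 := eqim (sgn l * p.1) p.2 g 0 (by
      push_cast; linear_combination heq)
    rw [Complex.zero_im, mul_zero, add_zero] at e1
    have e2 := valq (sgn l * p.1) p.2
    have e7 : (Complex.I * ((if bl l then (p.1 : ℤ) else -(p.1 : ℤ) : ℤ) : ℂ) * p.2 ^ 2 /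
        (4 * π) + Complex.I * p.2 + v).re =
        (Complex.I * ((sgn l * p.1 : ℝ) : ℂ) * p.2 ^ 2 / (4 * π) + Complex.I * p.2).re +
          v.re := by
      rw [sg_cx]
      push_cast
      simp only [Complex.add_re]
    rw [e7]
    simp only [hsum]
    linear_combination e2 + i4 + (-p.2.im) * e1

end Pool.Agent.W374.HT.Cch
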